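import Mathlib

/-!
# Uniform sublevel bound for real polynomials in one variable

PROOF. Let `S = {t < N : |a + q(t)| ≤ p}` and `L = ⌊(E + 1) * p / c⌋₊ + 1`. Claim `#S ≤ E * L`, so
`C = E * L` works. Suppose `#S ≥ E * L + 1`. Choose `t_0 < t_1 < ... < t_E` in `S` with
`t_{i+1} - t_i ≥ L` (for instance `t_i =` the element number `i * L` of `S` in increasing order,
`S.orderEmbOfFin`; strictly increasing natural numbers grow by at least one, so
`t_{i+1} - t_i ≥ L`). Let `r = q + C a`, of the same leading coefficient and degree `E`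
(`E ≥ 1`). `Lagrange.leadingCoeff_eq_sum` (or `Lagrange.coeff_eq_sum`) for the `E + 1` nodes:
`lc = ∑_i r(t_i) / ∏_{j ≠ i} (t_i - t_j)`, every factor is at least `L ≥ 1` in absolute value and
there are `E ≥ 1` of them, hence `c ≤ |lc| ≤ (E + 1) * p / L ^ E ≤ (E + 1) * p / L < c`
(because `L > (E + 1) * p / c`), a contradiction.
-/

set_option autoImplicit false

open Finset

namespace Pool.Agent.Lib.Pf720qp

namespace CountAux

lemma emb_grow {k : ℕ} (e : Fin k ↪o ℕ) (m : ℕ) : ∀ (d : ℕ) (h : m + d < k),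
    e ⟨m, by omega⟩ + d ≤ e ⟨m + d, h⟩ := by
  intro d
  induction d with
  | zero =>
    intro h
    exact le_refl _
  | succ d ih =>
    intro h
    have h1 := ih (by omega)
    have h2 : e ⟨m + d, by omega⟩ < e ⟨m + (d + 1), h⟩ := by
      apply e.strictMono
      rw [Fin.mk_lt_mk]
      omega
    omega

lemma emb_dist {k : ℕ} (e : Fin k ↪o ℕ) {E L : ℕ} (hk : E * L < k) {i j : ℕ} (hi : i ≤ E)
    (hj : j ≤ E) (hij : i < j) :
    e ⟨i * L, lt_of_le_of_lt (Nat.mul_le_mul_right L hi) hk⟩ + L ≤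
      e ⟨j * L, lt_of_le_of_lt (Nat.mul_le_mul_right L hj) hk⟩ := by
  have h1 : i * L + L ≤ j * L := by
    calc i * L + L = (i + 1) * L := by ring
      _ ≤ j * L := Nat.mul_le_mul_right L hij
  have h2 : j * L < k := lt_of_le_of_lt (Nat.mul_le_mul_right L hj) hk
  have h3 := emb_grow e (i * L) (j * L - i * L) (by omega)
  have h4 : (⟨i * L + (j * L - i * L), by omega⟩ : Fin k) = ⟨j * L, h2⟩ := by
    apply Fin.ext
    show i * L + (j * L - i * L) = j * L
    omega
  rw [h4] at h3
  omega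

end CountAux

theorem count_lead (E : ℕ) (hE : 1 ≤ E) {p c : ℝ} (hp : 0 ≤ p) (hc : 0 < c) :
    ∃ C : ℝ, 0 ≤ C ∧ ∀ q : Polynomial ℝ, q.natDegree = E → c ≤ |q.leadingCoeff| →
      ∀ (a : ℝ) (N : ℕ),
        (((range N).filter fun t : ℕ => |a + q.eval (t : ℝ)| ≤ p).card : ℝ) ≤ C := by
  set L : ℕ := ⌊(E + 1) * p / c⌋₊ + 1 with hL
  refine ⟨(E * L : ℕ), Nat.cast_nonneg _, ?_⟩
  intro q hq hlc a N
  by_contra hcon
  rw [not_le, Nat.cast_lt] at hcon
  set S := (range N).filter fun t : ℕ => |a + q.eval (t : ℝ)| ≤ p with hS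
  have hLr : (E + 1) * p / c < L := by
    rw [hL]
    push_cast
    exact Nat.lt_floor_add_one _
  have hL1 : (1 : ℝ) ≤ L := by
    rw [hL]
    push_cast
    have : (0 : ℝ) ≤ (⌊(E + 1) * p / c⌋₊ : ℝ) := Nat.cast_nonneg _
    linarith
  let e := S.orderEmbOfFin (rfl : S.card = S.card)
  let t : Fin (E + 1) → ℕ := fun i =>
    e ⟨i * L, lt_of_le_of_lt (Nat.mul_le_mul_right L (Nat.lt_succ_iff.1 i.2)) hcon⟩
  have htS : ∀ i, t i ∈ S := fun i => S.orderEmbOfFin_mem rfl _
  have hdist : ∀ i j : Fin (E + 1), i ≠ j → (L : ℝ) ≤ |(t i : ℝ) - t j| := by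
    intro i j hij
    rcases lt_or_gt_of_ne (fun h => hij (Fin.ext h)) with h | h
    · have h1 := CountAux.emb_dist e hcon (Nat.lt_succ_iff.1 i.2) (Nat.lt_succ_iff.1 j.2) h
      have h2 : (t i : ℝ) + L ≤ t j := by exact_mod_cast h1
      rw [abs_sub_comm]
      refine le_trans ?_ (le_abs_self _)
      linarith
    · have h1 := CountAux.emb_dist e hcon (Nat.lt_succ_iff.1 j.2) (Nat.lt_succ_iff.1 i.2) h
      have h2 : (t j : ℝ) + L ≤ t i := by exact_mod_cast h1
      refine le_trans ?_ (le_abs_self _)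
      linarith
  set r : Polynomial ℝ := q + Polynomial.C a with hr
  have hrd : r.natDegree = E := by rw [hr, Polynomial.natDegree_add_C, hq]
  have hr0 : r ≠ 0 := by
    intro h0
    rw [h0, Polynomial.natDegree_zero] at hrd
    omega
  have hlr : r.leadingCoeff = q.leadingCoeff := by
    unfold Polynomial.leadingCoeff
    rw [hrd, hq, hr, Polynomial.coeff_add, Polynomial.coeff_C_of_ne_zero (by omega), add_zero]
  have hinj : Set.InjOn (fun i : Fin (E + 1) => (t i : ℝ)) (Finset.univ : Finset (Fin (E + 1))) := by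
    intro i _ j _ hij
    by_contra hne
    have h1 := hdist i j hne
    have h2 : (t i : ℝ) = t j := hij
    rw [h2, sub_self, abs_zero] at h1
    linarith
  have hcard : ((Finset.univ : Finset (Fin (E + 1))).card : WithBot ℕ) = r.degree + 1 := by
    rw [Polynomial.degree_eq_natDegree hr0, hrd, Finset.card_univ, Fintype.card_fin]
    push_cast
    rfl
  have hlag := Lagrange.leadingCoeff_eq_sum hinj hcard
  have hbound : |r.leadingCoeff| ≤ (E + 1) * p / L := by
    rw [hlag]
    refine (Finset.abs_sum_le_sum_abs _ _).trans ?_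
    have h1 : ∀ i ∈ (Finset.univ : Finset (Fin (E + 1))),
        |r.eval (t i : ℝ) / ∏ j ∈ Finset.univ.erase i, ((t i : ℝ) - t j)| ≤ p / L := by
      intro i _
      rw [abs_div, Finset.abs_prod]
      have h2 : |r.eval (t i : ℝ)| ≤ p := by
        have h3 := htS i
        rw [hS, Finset.mem_filter] at h3
        rw [hr, Polynomial.eval_add, Polynomial.eval_C, add_comm]
        exact h3.2
      have h3 : (L : ℝ) ≤ ∏ j ∈ Finset.univ.erase i, |(t i : ℝ) - t j| := by
        calc (L : ℝ) = (L : ℝ) ^ 1 := (pow_one _).symm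
          _ ≤ (L : ℝ) ^ E := pow_le_pow_right₀ hL1 hE
          _ = ∏ _j ∈ Finset.univ.erase i, (L : ℝ) := by
            rw [Finset.prod_const, Finset.card_erase_of_mem (Finset.mem_univ i),
              Finset.card_univ, Fintype.card_fin, Nat.add_sub_cancel]
          _ ≤ _ := Finset.prod_le_prod (fun _ _ => by positivity) fun j hj =>
            hdist i j (Finset.ne_of_mem_erase hj).symm
      exact div_le_div₀ hp h2 (by linarith) h3
    refine (Finset.sum_le_sum h1).trans (le_of_eq ?_)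
    rw [Finset.sum_const, Finset.card_univ, Fintype.card_fin, nsmul_eq_mul]
    push_cast
    ring
  rw [hlr] at hbound
  have h5 := hlc.trans hbound
  rw [le_div_iff₀ (by linarith)] at h5
  rw [div_lt_iff₀ hc] at hLr
  linarith

end Pool.Agent.Lib.Pf720qp
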