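import Pool.Agent.Lib.Pf720qp.Defs
import Pool.Agent.Lib.Pf720qp.Count

/-!
# Sublevel sets of real polynomials in several variables

`pp b m = ∑ γ, b γ * mon m γ`, `mon m γ = ∏ l, m l ^ γ l` (`Pf720mp/Defs.lean`).

PROOF. For a variable `l` and `e ≤ D` let `lc b l e : Ex κ D → ℝ`,
`lc b l e γ = if γ l = 0 then b (Function.update γ l e) else 0` (the coefficient of `m_l ^ e`). Then
for all `m`, `t`: `pp b (update m l t) = ∑_{e : Fin (D+1)} pp (lc b l e) m * t ^ e` (split `γ` into
`(update γ l 0, γ l)`), and `pp (lc b l e) m` does not depend on `m l`. So along the line in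
direction `l` the function is the real polynomial `q_m = ∑ e, C (pp (lc b l e) m) * X ^ e` in `t`.
Let `E` be the largest `e` with `lc b l e ≠ 0`. If `b γ ≠ 0` for some `γ` with `γ l ≠ 0` then
`E ≥ 1`; `q_m` has `natDegree = E` and leading coefficient `pp (lc b l E) m` as soon as the latter is
nonzero.

`line_of_poly`: if `lc b l E γ = 0` for all `γ ≠ 0` then `pp (lc b l E) m = lc b l E 0 = c₀ ≠ 0` for
all `m`: take `G = True` and the constant of `count_lead E` with `c = |c₀|`. Otherwise take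
`G m ↔ 1 < |pp (lc b l E) m|` (independent of `m l`) and `count_lead E` with `c = 1`; the
complement is thin by `thin_of_poly` applied to `lc b l E` and `p = 1`.

`thin_of_poly`: induction on the number of variables that occur in `b`
(`(univ.filter fun l => ∃ γ, b γ ≠ 0 ∧ γ l ≠ 0).card`): choose `l` that occurs; with `G`, `C` as above
(the set for `lc b l E` is thin by induction, as `l` no longer occurs),
`{|pp b m| ≤ p} ⊆ {¬ G m} ∪ {G m, |pp b m| ≤ p}` and the density of the second set in the box `M` is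
at most `C / M l` (`Alg.avg_update`, compare `Pf720pp.CoreAux.bad_density`: every line in direction
`l` contains at most `C` points of it), which tends to zero (`Alg.tendsto_coord`).
(So it is best to prove both statements together by that induction.)
-/

set_option autoImplicit false
set_option linter.unusedSectionVars false

open Finset MeasureTheory Filter Topology

namespace Pool.Agent.Lib.Pf720qp

open Pool.Agent.Lib.Pf720ae
open Pool.Agent.Lib.Pf720mp (Ex mon pp)

variable {κ : Type} [Fintype κ] [DecidableEq κ] {D : ℕ}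

namespace DensAux

/-- the coefficient of `m_l ^ e` -/
noncomputable def lc (b : Ex κ D → ℝ) (l : κ) (e : Fin (D + 1)) : Ex κ D → ℝ :=
  fun γ => if γ l = 0 then b (Function.update γ l e) else 0

open Classical in
/-- the variables that occur -/
noncomputable def vars (b : Ex κ D → ℝ) : Finset κ :=
  univ.filter fun l => ∃ γ, b γ ≠ 0 ∧ γ l ≠ 0

lemma mem_vars {b : Ex κ D → ℝ} {l : κ} : l ∈ vars b ↔ ∃ γ, b γ ≠ 0 ∧ γ l ≠ 0 := by
  unfold vars
  simp

lemma mon_update (m : κ → ℕ) (l : κ) (t : ℕ) (γ : Ex κ D) :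
    mon (Function.update m l t) γ = t ^ (γ l : ℕ) * mon m (Function.update γ l 0) := by
  unfold mon
  rw [← Finset.mul_prod_erase univ (fun l' => Function.update m l t l' ^ (γ l' : ℕ))
      (Finset.mem_univ l),
    ← Finset.mul_prod_erase univ (fun l' => m l' ^ ((Function.update γ l 0) l' : ℕ))
      (Finset.mem_univ l)]
  simp only [Function.update_self, Fin.val_zero, pow_zero, one_mul]
  congr 1
  refine Finset.prod_congr rfl fun l' hl' => ?_
  have hne : l' ≠ l := Finset.ne_of_mem_erase hl'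
  rw [Function.update_of_ne hne, Function.update_of_ne hne]

lemma pp_update (b : Ex κ D → ℝ) (l : κ) (m : κ → ℕ) (t : ℕ) :
    pp b (Function.update m l t) = ∑ e : Fin (D + 1), pp (lc b l e) m * (t : ℝ) ^ (e : ℕ) := by
  classical
  unfold pp
  have h1 : ∀ e : Fin (D + 1), (∑ γ, lc b l e γ * (mon m γ : ℝ)) * (t : ℝ) ^ (e : ℕ) =
      ∑ γ ∈ univ.filter (fun γ : Ex κ D => γ l = 0),
        b (Function.update γ l e) * (mon m γ : ℝ) * (t : ℝ) ^ (e : ℕ) := by
    intro e
    rw [Finset.sum_mul, Finset.sum_filter]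
    refine Finset.sum_congr rfl fun γ _ => ?_
    unfold lc
    split_ifs
    · rfl
    · ring
  rw [Finset.sum_congr rfl fun e _ => h1 e]
  rw [← Finset.sum_product']
  refine Finset.sum_bij' (fun γ _ => (γ l, Function.update γ l 0))
    (fun p _ => Function.update p.2 l p.1) ?_ ?_ ?_ ?_ ?_
  · intro γ _
    rw [Finset.mem_product, Finset.mem_filter]
    exact ⟨Finset.mem_univ _, Finset.mem_univ _, Function.update_self _ _ _⟩
  · intro p _
    exact Finset.mem_univ _
  · intro γ _
    simp
  · intro p hp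
    rw [Finset.mem_product, Finset.mem_filter] at hp
    have h2 : p.2 l = 0 := hp.2.2
    refine Prod.ext ?_ ?_
    · simp
    · show Function.update (Function.update p.2 l p.1) l 0 = p.2
      rw [Function.update_idem, ← h2, Function.update_eq_self]
  · intro γ _
    rw [mon_update]
    push_cast
    simp only [Function.update_idem, Function.update_eq_self]
    ring

lemma pp_update_of_zero {c : Ex κ D → ℝ} {l : κ} (hc : ∀ γ, c γ ≠ 0 → γ l = 0) (m : κ → ℕ)
    (t : ℕ) : pp c (Function.update m l t) = pp c m := by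
  unfold pp
  refine Finset.sum_congr rfl fun γ _ => ?_
  by_cases h : c γ = 0
  · rw [h, zero_mul, zero_mul]
  · rw [mon_update, hc γ h]
    simp only [Fin.val_zero, pow_zero, one_mul]
    rw [← hc γ h, Function.update_eq_self]

lemma lc_zero {b : Ex κ D → ℝ} {l : κ} {e : Fin (D + 1)} (γ : Ex κ D) (h : lc b l e γ ≠ 0) :
    γ l = 0 := by
  by_contra h'
  exact h (if_neg h')

/-- the polynomial along a line -/
noncomputable def lp (b : Ex κ D → ℝ) (l : κ) (m : κ → ℕ) : Polynomial ℝ :=
  ∑ e : Fin (D + 1), Polynomial.C (pp (lc b l e) m) * Polynomial.X ^ (e : ℕ)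

lemma eval_lp (b : Ex κ D → ℝ) (l : κ) (m : κ → ℕ) (t : ℕ) :
    (lp b l m).eval (t : ℝ) = pp b (Function.update m l t) := by
  rw [pp_update]
  unfold lp
  rw [Polynomial.eval_finset_sum]
  refine Finset.sum_congr rfl fun e _ => ?_
  simp

lemma coeff_lp (b : Ex κ D → ℝ) (l : κ) (m : κ → ℕ) (k : ℕ) :
    (lp b l m).coeff k = if h : k < D + 1 then pp (lc b l ⟨k, h⟩) m else 0 := by
  unfold lp
  rw [Polynomial.finset_sum_coeff]
  simp only [Polynomial.coeff_C_mul, Polynomial.coeff_X_pow]
  split_ifs with h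
  · rw [Finset.sum_eq_single (⟨k, h⟩ : Fin (D + 1))]
    · simp
    · intro e _ he
      rw [if_neg, mul_zero]
      intro h2
      exact he (Fin.ext h2.symm)
    · intro h2
      exact absurd (Finset.mem_univ _) h2
  · refine Finset.sum_eq_zero fun e _ => ?_
    rw [if_neg, mul_zero]
    intro h2
    exact h (by rw [h2]; exact e.2)

lemma pp_zero_coeff {c : Ex κ D → ℝ} (h : ∀ γ, γ ≠ 0 → c γ = 0) (m : κ → ℕ) : pp c m = c 0 := by
  unfold pp
  rw [Finset.sum_eq_single (0 : Ex κ D)]
  · simp
  · intro γ _ hγ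
    rw [h γ hγ, zero_mul]
  · intro h2
    exact absurd (Finset.mem_univ _) h2

lemma degree_lp {b : Ex κ D → ℝ} {l : κ} {m : κ → ℕ} {E : Fin (D + 1)}
    (hE : ∀ e : Fin (D + 1), E < e → lc b l e = 0) (h : pp (lc b l E) m ≠ 0) :
    (lp b l m).natDegree = E ∧ (lp b l m).leadingCoeff = pp (lc b l E) m := by
  have hcE : (lp b l m).coeff E = pp (lc b l E) m := by
    rw [coeff_lp, dif_pos E.2]
  have h1 : (lp b l m).natDegree = E := by
    refine Polynomial.natDegree_eq_of_le_of_coeff_ne_zero ?_ (by rw [hcE]; exact h)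
    rw [Polynomial.natDegree_le_iff_coeff_eq_zero]
    intro k hk
    rw [coeff_lp]
    split_ifs with hk2
    · rw [hE ⟨k, hk2⟩ (by rw [Fin.lt_def]; exact hk)]
      simp [pp]
    · rfl
  refine ⟨h1, ?_⟩
  rw [Polynomial.leadingCoeff, h1, hcE]

lemma line_aux (b : Ex κ D → ℝ) (l : κ) (hb : ∃ γ : Ex κ D, γ l ≠ 0 ∧ b γ ≠ 0) {p : ℝ}
    (hp : 0 ≤ p)
    (hthin : ∀ c : Ex κ D → ℝ, (vars c).card < (vars b).card → (∃ γ, γ ≠ 0 ∧ c γ ≠ 0) →
      ∀ p : ℝ, Thin fun m : κ → ℕ => |pp c m| ≤ p) :
    ∃ (G : (κ → ℕ) → Prop) (C : ℝ), 0 ≤ C ∧ Thin (fun m => ¬ G m) ∧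
      ∀ (m : κ → ℕ) (t : ℕ), G (Function.update m l t) → ∀ (a : ℝ) (N : ℕ),
        (((range N).filter fun s : ℕ => |a + pp b (Function.update m l s)| ≤ p).card : ℝ) ≤ C := by
  classical
  obtain ⟨γ₀, hγ₀, hbγ₀⟩ := hb
  have hne0 : lc b l (γ₀ l) ≠ 0 := by
    intro h
    have h1 := congrFun h (Function.update γ₀ l 0)
    unfold lc at h1
    rw [if_pos (Function.update_self _ _ _), Function.update_idem, Function.update_eq_self] at h1
    exact hbγ₀ h1
  obtain ⟨E, hEmem, hEmax⟩ := Finset.exists_max_image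
    (univ.filter fun e : Fin (D + 1) => lc b l e ≠ 0) (fun e => e)
    ⟨γ₀ l, by rw [Finset.mem_filter]; exact ⟨Finset.mem_univ _, hne0⟩⟩
  rw [Finset.mem_filter] at hEmem
  have hEne : lc b l E ≠ 0 := hEmem.2
  have hE1 : 1 ≤ (E : ℕ) := by
    have h1 := hEmax (γ₀ l) (by rw [Finset.mem_filter]; exact ⟨Finset.mem_univ _, hne0⟩)
    have h2 : (γ₀ l : ℕ) ≤ (E : ℕ) := h1
    have h3 : (γ₀ l : ℕ) ≠ 0 := fun h => hγ₀ (Fin.ext h)
    omega
  have hE : ∀ e : Fin (D + 1), E < e → lc b l e = 0 := by
    intro e he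
    by_contra h
    have := hEmax e (by rw [Finset.mem_filter]; exact ⟨Finset.mem_univ _, h⟩)
    exact absurd he (not_lt.2 this)
  by_cases hA : ∀ γ, γ ≠ 0 → lc b l E γ = 0
  · have hc0 : lc b l E 0 ≠ 0 := by
      intro h
      apply hEne
      funext γ
      by_cases hγ : γ = 0
      · rw [hγ, h]; rfl
      · exact hA γ hγ
    obtain ⟨C, hC, hcount⟩ := count_lead E hE1 hp (abs_pos.2 hc0)
    refine ⟨fun _ => True, C, hC, Thin.false.mono fun m h => h trivial, ?_⟩
    intro m t _ a N
    have h1 : pp (lc b l E) m = lc b l E 0 := pp_zero_coeff hA m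
    obtain ⟨h2, h3⟩ := degree_lp (m := m) hE (by rw [h1]; exact hc0)
    have h4 := hcount (lp b l m) h2 (by rw [h3, h1]) a N
    simp only [eval_lp] at h4
    exact h4
  · push Not at hA
    obtain ⟨C, hC, hcount⟩ := count_lead E hE1 hp (one_pos)
    refine ⟨fun m => 1 < |pp (lc b l E) m|, C, hC, ?_, ?_⟩
    · refine (hthin (lc b l E) ?_ hA 1).mono fun m h => not_lt.1 h
      refine Finset.card_lt_card ?_
      rw [Finset.ssubset_iff_of_subset]
      · refine ⟨l, mem_vars.2 ⟨γ₀, hbγ₀, hγ₀⟩, ?_⟩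
        rw [mem_vars]
        rintro ⟨γ, h1, h2⟩
        exact h2 (lc_zero γ h1)
      · intro l' hl'
        obtain ⟨γ, h1, h2⟩ := mem_vars.1 hl'
        have h3 := lc_zero γ h1
        have hne : l' ≠ l := by
          rintro rfl
          exact h2 h3
        refine mem_vars.2 ⟨Function.update γ l E, ?_, ?_⟩
        · unfold lc at h1
          rw [if_pos h3] at h1
          exact h1
        · rw [Function.update_of_ne hne]
          exact h2
    · intro m t hG a N
      have h1 : 1 < |pp (lc b l E) m| := by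
        have := hG
        rwa [pp_update_of_zero (fun γ h => lc_zero γ h)] at this
      have hne : pp (lc b l E) m ≠ 0 := by
        intro h
        rw [h, abs_zero] at h1
        linarith
      obtain ⟨h2, h3⟩ := degree_lp (m := m) hE hne
      have h4 := hcount (lp b l m) h2 (by rw [h3]; exact h1.le) a N
      simp only [eval_lp] at h4
      exact h4

lemma thin_line {B : (κ → ℕ) → Prop} (l : κ) {C : ℝ} (hC : 0 ≤ C)
    (h : ∀ (m : κ → ℕ) (N : ℕ) (S : Finset ℕ), (∀ t ∈ S, t ∈ range N ∧
      B (Function.update m l t)) → (S.card : ℝ) ≤ C) : Thin B := by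
  classical
  have hlim : Tendsto (fun M : κ → ℕ => C / (M l : ℝ)) atTop (𝓝 0) := by
    refine Tendsto.div_atTop tendsto_const_nhds ?_
    exact tendsto_natCast_atTop_atTop.comp (Alg.tendsto_coord l)
  refine squeeze_zero' (Eventually.of_forall fun M => avg_nonneg M fun m => by
    split_ifs <;> norm_num) ?_ hlim
  have hev : ∀ᶠ M : κ → ℕ in atTop, ∀ l, 0 < M l := by
    rw [Filter.eventually_all]
    intro l'
    exact (Alg.tendsto_coord l').eventually_gt_atTop 0
  filter_upwards [hev] with M hM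
  have hMl : (0 : ℝ) < M l := by exact_mod_cast hM l
  rw [Alg.avg_update M hM l]
  refine avg_le_of_le (by positivity) fun m => ?_
  rw [inv_mul_eq_div]
  refine div_le_div_of_nonneg_right ?_ hMl.le
  rw [← Finset.sum_filter, Finset.sum_const, nsmul_eq_mul, mul_one]
  refine h m (M l) _ fun t ht => ?_
  rw [Finset.mem_filter] at ht
  exact ht

lemma thin_aux : ∀ (n : ℕ) (b : Ex κ D → ℝ), (vars b).card ≤ n → (∃ γ, γ ≠ 0 ∧ b γ ≠ 0) →
    ∀ p : ℝ, Thin fun m : κ → ℕ => |pp b m| ≤ p := by
  classical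
  intro n
  induction n with
  | zero =>
    rintro b hn ⟨γ, hγ, hb⟩ p
    obtain ⟨l, hl⟩ : ∃ l, γ l ≠ 0 := by
      by_contra h
      push Not at h
      exact hγ (funext h)
    have h1 : l ∈ vars b := mem_vars.2 ⟨γ, hb, hl⟩
    have h2 : vars b = ∅ := Finset.card_eq_zero.1 (Nat.le_zero.1 hn)
    rw [h2] at h1
    exact absurd h1 (Finset.notMem_empty _)
  | succ n ih =>
    rintro b hn ⟨γ, hγ, hb⟩ p
    by_cases hp : 0 ≤ p
    · obtain ⟨l, hl⟩ : ∃ l, γ l ≠ 0 := by
        by_contra h
        push Not at h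
        exact hγ (funext h)
      obtain ⟨G, C, hC, hG, hline⟩ := line_aux b l ⟨γ, hl, hb⟩ hp
        (fun c hc hne q => ih c (by omega) hne q)
      have h2 : Thin fun m : κ → ℕ => G m ∧ |pp b m| ≤ p := by
        refine thin_line l hC fun m N S hS => ?_
        by_cases hex : ∃ t, G (Function.update m l t)
        · obtain ⟨t, ht⟩ := hex
          refine le_trans ?_ (hline m t ht 0 N)
          refine Nat.cast_le.2 (Finset.card_le_card ?_)
          intro s hs
          rw [Finset.mem_filter]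
          refine ⟨(hS s hs).1, ?_⟩
          rw [zero_add]
          exact (hS s hs).2.2
        · push Not at hex
          have : S = ∅ := by
            rw [Finset.eq_empty_iff_forall_notMem]
            intro t ht
            exact hex t (hS t ht).2.1
          rw [this]
          simpa using hC
      refine (hG.or h2).mono fun m h => ?_
      by_cases hGm : G m
      · exact Or.inr ⟨hGm, h⟩
      · exact Or.inl hGm
    · refine Thin.false.mono fun m h => ?_
      have := abs_nonneg (pp b m)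
      linarith

end DensAux

theorem thin_of_poly (b : Ex κ D → ℝ) (hb : ∃ γ, γ ≠ 0 ∧ b γ ≠ 0) (p : ℝ) :
    Thin fun m : κ → ℕ => |pp b m| ≤ p := by
  exact DensAux.thin_aux _ b le_rfl hb p

theorem line_of_poly (b : Ex κ D → ℝ) (l : κ) (hb : ∃ γ : Ex κ D, γ l ≠ 0 ∧ b γ ≠ 0) {p : ℝ}
    (hp : 0 ≤ p) : ∃ (G : (κ → ℕ) → Prop) (C : ℝ), 0 ≤ C ∧ Thin (fun m => ¬ G m) ∧
      ∀ (m : κ → ℕ) (t : ℕ), G (Function.update m l t) → ∀ (a : ℝ) (N : ℕ),
        (((range N).filter fun s : ℕ => |a + pp b (Function.update m l s)| ≤ p).card : ℝ) ≤ C := by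
  exact DensAux.line_aux b l hb hp (fun c _ hc q => DensAux.thin_aux _ c le_rfl hc q)

end Pool.Agent.Lib.Pf720qp
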