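import Pool.Agent.Lib.Pf720qp.Defs
import Pool.Agent.Lib.Pf720pp.Base

/-!
# The real polynomials `φ ∘ P`

PROOF. Let `D` bound all exponents `s l` of the monomials `s ∈ (P i).support`, `i < d`. For
`γ : Ex κ D` let `γ' : κ →₀ ℕ` be the corresponding finsupp (`Finsupp.equivFunOnFinite.symm
fun l => (γ l : ℕ)`) and `b γ = φ fun i => coeff γ' (P i)`. Then
`eval (m) (P i) = ∑ s ∈ support, coeff s (P i) * ∏ l, m l ^ s l` (`MvPolynomial.eval_eq'`)
`= ∑ γ, coeff γ' (P i) * mon m γ` (`γ ↦ γ'` is injective and its range contains the support), and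
`φ` is additive, hence `φ (ev P m) = ∑ γ, b γ * mon m γ` (`Pf720pp.phi_eq` writes `φ v` as
`∑ i, φ (Pi.single i 1) * v i`). If `coeff s (P i) ≠ 0` then `s = γ'` for some `γ` and `b γ ≠ 0` as
`φ` is injective.
-/

set_option autoImplicit false
set_option linter.unusedSectionVars false

open Finset

namespace Pool.Agent.Lib.Pf720qp

open Pool.Agent.Lib.Pf720mp (Ex mon pp)

variable {κ : Type} [Fintype κ] [DecidableEq κ] {d : ℕ}

theorem exists_pp {φ : (Fin d → ℤ) →+ ℝ} (hφ : Function.Injective φ) (P : MV κ d) :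
    ∃ (D : ℕ) (b : Ex κ D → ℝ), (∀ m : κ → ℕ, φ (ev P m) = pp b m) ∧
      ∀ (i : Fin d) (s : κ →₀ ℕ), MvPolynomial.coeff s (P i) ≠ 0 →
        ∃ γ : Ex κ D, (∀ l, (γ l : ℕ) = s l) ∧ b γ ≠ 0 := by
  set D : ℕ := ∑ i, ∑ s ∈ (P i).support, ∑ l, s l with hD
  have hle : ∀ (i : Fin d) (s : κ →₀ ℕ), MvPolynomial.coeff s (P i) ≠ 0 → ∀ l, s l ≤ D := by
    intro i s hs l
    have h1 : s l ≤ ∑ l, s l :=
      Finset.single_le_sum (f := fun l => s l) (fun _ _ => Nat.zero_le _) (Finset.mem_univ l)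
    have h2 : ∑ l, s l ≤ ∑ s ∈ (P i).support, ∑ l, s l :=
      Finset.single_le_sum (f := fun s : κ →₀ ℕ => ∑ l, s l) (fun _ _ => Nat.zero_le _)
        (MvPolynomial.mem_support_iff.2 hs)
    have h3 : ∑ s ∈ (P i).support, ∑ l, s l ≤ D :=
      Finset.single_le_sum (f := fun i => ∑ s ∈ (P i).support, ∑ l, s l)
        (fun _ _ => Nat.zero_le _) (Finset.mem_univ i)
    exact h1.trans (h2.trans h3)
  set fs : Ex κ D → κ →₀ ℕ := fun γ => Finsupp.equivFunOnFinite.symm fun l => (γ l : ℕ) with hfs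
  have hfsl : ∀ γ l, fs γ l = (γ l : ℕ) := fun γ l => rfl
  have hinj : Function.Injective fs := by
    intro γ γ' h
    funext l
    refine Fin.ext ?_
    rw [← hfsl γ l, ← hfsl γ' l, h]
  have hsurj : ∀ (i : Fin d) (s : κ →₀ ℕ), MvPolynomial.coeff s (P i) ≠ 0 → ∃ γ, fs γ = s := by
    intro i s hs
    refine ⟨fun l => ⟨s l, Nat.lt_succ_of_le (hle i s hs l)⟩, ?_⟩
    ext l
    rfl
  refine ⟨D, fun γ => φ fun i => MvPolynomial.coeff (fs γ) (P i), fun m => ?_, ?_⟩
  · have h1 : ev P m = ∑ γ : Ex κ D, ((mon m γ : ℕ) : ℤ) •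
        (fun i => MvPolynomial.coeff (fs γ) (P i) : Fin d → ℤ) := by
      funext i
      rw [Finset.sum_apply]
      simp only [Pi.smul_apply, smul_eq_mul]
      unfold ev
      rw [MvPolynomial.eval_eq']
      have h2 : ∑ s ∈ (P i).support, MvPolynomial.coeff s (P i) * ∏ l, ((m l : ℕ) : ℤ) ^ s l =
          ∑ s ∈ Finset.univ.map ⟨fs, hinj⟩,
            MvPolynomial.coeff s (P i) * ∏ l, ((m l : ℕ) : ℤ) ^ s l := by
        refine Finset.sum_subset (fun s hs => ?_) fun s _ hs => ?_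
        · obtain ⟨γ, hγ⟩ := hsurj i s (MvPolynomial.mem_support_iff.1 hs)
          exact Finset.mem_map.2 ⟨γ, Finset.mem_univ _, hγ⟩
        · rw [MvPolynomial.notMem_support_iff.1 hs, zero_mul]
      rw [h2, Finset.sum_map]
      refine Finset.sum_congr rfl fun γ _ => ?_
      rw [mul_comm]
      unfold mon
      push_cast
      rfl
    rw [h1, map_sum]
    unfold pp
    refine Finset.sum_congr rfl fun γ _ => ?_
    rw [map_zsmul, zsmul_eq_mul, mul_comm]
    push_cast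
    rfl
  · intro i s hs
    obtain ⟨γ, hγ⟩ := hsurj i s hs
    refine ⟨γ, fun l => by rw [← hγ, hfsl], fun h0 => hs ?_⟩
    have h1 : (fun i => MvPolynomial.coeff (fs γ) (P i)) = (0 : Fin d → ℤ) :=
      hφ (h0.trans (map_zero φ).symm)
    rw [← hγ]
    exact congrFun h1 i

end Pool.Agent.Lib.Pf720qp
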