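import Pool.Agent.Lib.Pf720qp.Core
import Pool.Agent.Lib.Pf720qp.Dens
import Pool.Agent.Lib.Pf720qp.PolyRep

/-!
# Products of tail functions and delayed martingale differences along polynomials

Adaptation of `Pf720pp.base_case` (file `Pf720pp/Base.lean`).

DIFFERENCES. Call `l` visible if some non-tail `j` has `l ∈ (P j i).vars` for some `i`. For non-tail
`j` the polynomials `P j i` only involve visible variables, hence
`P j = ren Subtype.val (P' j)` with `P' j : MV {l // vis l} d`
(`MvPolynomial.exists_rename_eq_of_vars_subset_range`), and `ev (P j) (glue vis a b) = ev (P' j) a`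
(`ev_ren`). `ψ j m = φ (ev (P' j) m)`. For `i ≠ j` the polynomial `P' i - P' j` is nonzero with zero
constant terms, so `exists_pp` and `thin_of_poly` give `hne` (`ev` is additive:
`ev (P - Q) m = ev P m - ev Q m`). `dep j l := ∃ i, l ∈ (P' j i).vars`, `hdep` from `exists_pp` and
`line_of_poly` (`MvPolynomial.mem_vars`: some `s ∈ support` with `l ∈ s.support`), `hYinv`: if
`l` is in no `(P' j i).vars` then `ev (P' j) (update m l t) = ev (P' j) (update m l 0)`
(`MvPolynomial.eval₂Hom_congr'` or `exists_rename...`). If no variable is visible, `P j₀` has no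
variables and zero constant term, hence `P j₀ = 0`, excluded by `hP0`.

The doubled family (variables `{l // vis l} ⊕ ({l // ¬ vis l} ⊕ {l // ¬ vis l})`) is
`ren τ₁ (P j)` and `ren τ₂ (P j)` for the two injective maps
`τ₁ l = if vis l then inl l else inr (inl l)` and `τ₂ l = if vis l then inl l else inr (inr l)`;
`InC.ren` gives the membership in the class and `ev_ren` the values `ev (P j) (glue vis m₁ m₀)`.
-/

set_option autoImplicit false
set_option linter.unusedSectionVars false

open Finset MeasureTheory Filter Topology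
open scoped ENNReal

namespace Pool.Agent.Lib.Pf720qp

open Pool.Agent.Lib.Pf720ae
open Pool.Agent.Lib.Pf720pi (past tail past_mono past_le tail_le tail_le_past glue IsMD
  abs_prod_le_one measurable_tail_comp mdiff_meas mdiff_orth doubling)

variable {κ : Type} [Fintype κ] [DecidableEq κ]

lemma ev_congr {κ : Type} {d : ℕ} (P : MV κ d) {m m' : κ → ℕ}
    (h : ∀ i, ∀ l ∈ (P i).vars, m l = m' l) : ev P m = ev P m' := by
  funext i
  unfold ev
  exact MvPolynomial.hom_congr_vars (f₁ := MvPolynomial.eval fun l => (m l : ℤ))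
    (f₂ := MvPolynomial.eval fun l => (m' l : ℤ)) (by ext; simp) (fun l hl _ => by simp [h i l hl]) rfl

lemma ev_sub {κ : Type} {d : ℕ} (P Q : MV κ d) (m : κ → ℕ) :
    ev (fun i => P i - Q i) m = ev P m - ev Q m := by
  funext i
  simp [ev]

theorem base_case {X : Type} {mP : MeasurableSpace X} {mX : MeasurableSpace X} {μ : Measure X}
    [IsProbabilityMeasure μ] {d : ℕ} (hP : mP ≤ mX) (W : (Fin d → ℤ) → X → X)
    (hW0 : ∀ x, W 0 x = x)
    (hWadd : ∀ a b x, W (a + b) x = W a (W b x)) (hWmp : ∀ a, MeasurePreserving (W a) μ μ)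
    (φ : (Fin d → ℤ) →+ ℝ) (hφ : Function.Injective φ)
    (K : Set ℕ) (hK : ∀ v w, 1 ≤ v → v + w ∈ K → v + 2 * w ∈ K)
    (Q : Cls d) (hQ : ClosedRen K Q)
    (hH : PolR μ K Q W (tail W φ mP)) (hκ : Fintype.card κ ∈ K)
    {J : Type} [Fintype J] [DecidableEq J]
    (P : J → MV κ d) (hPQ : ∀ j, InC Q κ (P j))
    (hPc : ∀ j i, MvPolynomial.constantCoeff (P j i) = 0) (hP0 : ∀ j, P j ≠ 0)
    (hPinj : Function.Injective P)
    (F : J → X → ℝ)
    (hF : ∀ j, (Measurable[tail W φ mP] (F j) ∧ ∀ x, |F j x| ≤ 1) ∨ IsMD μ W φ mP (F j)) :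
    ∀ᵐ x ∂μ, Cvg fun m : κ → ℕ => ∏ j, F j (W (ev (P j) m) x) := by
  classical
  set tt : J → Prop := fun j => Measurable[tail W φ mP] (F j) ∧ ∀ x, |F j x| ≤ 1 with htt
  by_cases hall : ∀ j, tt j
  · exact hH κ J P F hκ hPQ (fun j => (hall j).1) (fun j => (hall j).2)
  push Not at hall
  obtain ⟨j₀, hj₀⟩ := hall
  have hWm : ∀ a, Measurable (W a) := fun a => (hWmp a).measurable
  -- the martingale differences
  have hmd : ∀ j : {j // ¬ tt j}, IsMD μ W φ mP (F j.1) := fun j => (hF j.1).resolve_left j.2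
  choose p f g hfm hf1 hgm hg1 hfg hFe using hmd
  have hFe' : ∀ (j : {j // ¬ tt j}) x, F j.1 x = (f j x - g j x) / 2 := fun j x =>
    congrFun (hFe j) x
  obtain ⟨pm, hpm⟩ : ∃ pm : ℕ, ∀ j, p j ≤ pm := ⟨Finset.univ.sup p, fun j =>
    Finset.le_sup (Finset.mem_univ j)⟩
  have hF1 : ∀ j x, |F j x| ≤ 1 := by
    intro j x
    by_cases h : tt j
    · exact h.2 x
    · rw [hFe' ⟨j, h⟩ x, abs_div, abs_of_pos (by norm_num : (0 : ℝ) < 2)]
      have h1 := abs_sub (f ⟨j, h⟩ x) (g ⟨j, h⟩ x)
      have h2 := hf1 ⟨j, h⟩ x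
      have h3 := hg1 ⟨j, h⟩ x
      rw [div_le_one (by norm_num)]
      linarith
  -- visible coordinates
  set vis : κ → Prop := fun l => ∃ (j : {j // ¬ tt j}) (i : Fin d), l ∈ (P j.1 i).vars with hvis
  have hsub : ∀ (j : {j // ¬ tt j}) (i : Fin d),
      ((P j.1 i).vars : Set κ) ⊆ Set.range (Subtype.val : {l // vis l} → κ) := by
    intro j i l hl
    exact ⟨⟨l, j, i, hl⟩, rfl⟩
  choose P' hP' using fun (j : {j // ¬ tt j}) (i : Fin d) =>
    MvPolynomial.exists_rename_eq_of_vars_subset_range (P j.1 i)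
      (Subtype.val : {l // vis l} → κ) Subtype.val_injective (hsub j i)
  have hren : ∀ j : {j // ¬ tt j}, P j.1 = ren Subtype.val (P' j) := fun j =>
    funext fun i => (hP' j i).symm
  have hP'c : ∀ j i, MvPolynomial.constantCoeff (P' j i) = 0 := by
    intro j i
    have h := hPc j.1 i
    rw [← hP' j i, MvPolynomial.constantCoeff_rename] at h
    exact h
  have hne : Nonempty {l // vis l} := by
    by_contra h
    rw [not_nonempty_iff] at h
    refine hP0 j₀ (funext fun i => ?_)
    have h1 := MvPolynomial.eq_C_of_isEmpty (P' ⟨j₀, hj₀⟩ i)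
    have h2 := hP'c ⟨j₀, hj₀⟩ i
    rw [MvPolynomial.constantCoeff_eq] at h2
    rw [← hP' ⟨j₀, hj₀⟩ i, h1, h2]
    simp
  -- the exponents of the martingale differences only see the visible coordinates
  have hev : ∀ (j : {j // ¬ tt j}) (a : {l // vis l} → ℕ) (b : {l // ¬ vis l} → ℕ),
      ev (P j.1) (glue vis a b) = ev (P' j) a := by
    intro j a b
    rw [hren j, ev_ren]
    congr 1
    funext l
    simp [glue, l.2]
  set ψ : {j // ¬ tt j} → ({l // vis l} → ℕ) → ℝ := fun j m => φ (ev (P' j) m) with hψ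
  have hcore : ∀ M₀ : {l // ¬ vis l} → ℕ, ∀ᵐ x ∂μ,
      Tendsto (fun M₁ : {l // vis l} → ℕ => avg M₁ fun m₁ =>
        (∏ j : {j // ¬ tt j}, F j.1 (W (ev (P j.1) (glue vis m₁ 0)) x)) *
          avg M₀ fun m₀ => ∏ j : {j // tt j}, F j.1 (W (ev (P j.1) (glue vis m₁ m₀)) x))
        atTop (𝓝 0) := by
    intro M₀
    refine core_ae (past W φ mP) (past_le W φ hP hWm) ψ (fun j l => ∃ i, l ∈ (P' j i).vars)
      (pm : ℝ) (by positivity) ?_ ?_ ?_
      (fun j m₁ x => F j.1 (W (ev (P j.1) (glue vis m₁ 0)) x)) ?_ ?_ ?_ ?_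
      (fun m₁ x => avg M₀ fun m₀ =>
        ∏ j : {j // tt j}, F j.1 (W (ev (P j.1) (glue vis m₁ m₀)) x)) ?_ ?_
    · -- distinct
      intro i j hij
      have hne' : P' i ≠ P' j := by
        intro h
        refine hij (Subtype.ext (hPinj ?_))
        rw [hren i, hren j, h]
      obtain ⟨i', hi'⟩ := Function.ne_iff.1 hne'
      obtain ⟨s, hs⟩ := MvPolynomial.ne_zero_iff.1 (sub_ne_zero.2 hi')
      obtain ⟨D, b, hb1, hb2⟩ := exists_pp hφ (fun i' => P' i i' - P' j i')
      obtain ⟨γ, hγ, hbγ⟩ := hb2 i' s hs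
      have hγ0 : γ ≠ 0 := by
        rintro rfl
        have hs0 : s = 0 := by
          ext l
          have := hγ l
          simpa using this.symm
        rw [hs0, ← MvPolynomial.constantCoeff_eq, map_sub, hP'c, hP'c, sub_zero] at hs
        exact hs rfl
      refine (thin_of_poly b ⟨γ, hγ0, hbγ⟩ (pm : ℝ)).mono fun m hm => ?_
      rw [← hb1, ev_sub, map_sub]
      exact hm
    · rintro j l ⟨i, hl⟩
      obtain ⟨s, hs, hls⟩ := (MvPolynomial.mem_vars_iff_mem_support l).1 hl
      obtain ⟨D, b, hb1, hb2⟩ := exists_pp hφ (P' j)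
      obtain ⟨γ, hγ, hbγ⟩ := hb2 i s (MvPolynomial.mem_support_iff.1 hs)
      have hγl : γ l ≠ 0 := by
        intro h
        have h1 := hγ l
        rw [h] at h1
        exact Finsupp.mem_support_iff.1 hls (by simpa using h1.symm)
      obtain ⟨G, C, hC0, hG, hC⟩ := line_of_poly b l ⟨γ, hγl, hbγ⟩ (p := (pm : ℝ)) (by positivity)
      refine ⟨G, C, hC0, hG, fun m t hm a N => ?_⟩
      have h1 := hC m t hm a N
      simp only [← hb1] at h1
      exact h1
    · rintro ⟨l, j, i, hl⟩
      rw [← hP' j i] at hl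
      obtain ⟨l', hl', e⟩ := MvPolynomial.mem_vars_rename _ _ hl
      refine ⟨j, i, ?_⟩
      have : l' = ⟨l, j, i, by rw [← hP' j i]; exact hl⟩ := Subtype.ext e
      rw [← this]
      exact hl'
    · intro j m x
      exact hF1 _ _
    · intro j m s hs
      have h1 := mdiff_meas W hWadd φ (p := (p j : ℝ)) (by positivity) (hfm j) (hgm j)
        (ev (P j.1) (glue vis m 0)) s (by rw [hev]; exact hs)
      have h2 := h1.div_const 2
      have e : (fun x => F j.1 (W (ev (P j.1) (glue vis m 0)) x)) = fun x =>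
          (f j (W (ev (P j.1) (glue vis m 0)) x) - g j (W (ev (P j.1) (glue vis m 0)) x)) / 2 := by
        funext x
        exact hFe' j _
      rw [e]
      exact h2
    · intro j m h hh hh1
      have hh' : Measurable[past W φ mP (φ (ev (P j.1) (glue vis m 0)) - (p j : ℝ))] h := by
        refine hh.mono (past_mono W φ mP ?_) le_rfl
        rw [hev]
        have : (p j : ℝ) ≤ pm := by exact_mod_cast hpm j
        simp only [hψ]
        linarith
      have h1 := mdiff_orth hP W hW0 hWadd hWmp φ (p j : ℝ) (hfm j) (hf1 j) (hfg j) (hgm j)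
        (hg1 j) (ev (P j.1) (glue vis m 0)) h hh' hh1
      have e2 : ∀ x, F j.1 (W (ev (P j.1) (glue vis m 0)) x) * h x = (1 / 2) *
          ((f j (W (ev (P j.1) (glue vis m 0)) x) - g j (W (ev (P j.1) (glue vis m 0)) x)) *
            h x) := by
        intro x
        rw [hFe' j]
        ring
      simp only [e2]
      rw [integral_const_mul, h1, mul_zero]
    · intro j l hl m t x
      have e : ev (P j.1) (glue vis (Function.update m l t) 0) =
          ev (P j.1) (glue vis (Function.update m l 0) 0) := by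
        rw [hev, hev]
        refine ev_congr _ fun i l' hl' => ?_
        have : l' ≠ l := by
          rintro rfl
          exact hl ⟨i, hl'⟩
        rw [Function.update_of_ne this, Function.update_of_ne this]
      simp only [e]
    · intro m x
      exact abs_avg_le_of_le zero_le_one fun m₀ => Pf720ae.abs_prod_le_one _ _ fun j => hF1 _ _
    · intro m s
      unfold avg
      refine Measurable.const_mul (Finset.measurable_fun_sum _ fun m₀ _ => ?_) _
      refine Finset.measurable_fun_prod _ fun j _ => ?_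
      exact measurable_tail_comp W hWadd φ j.2.1 _ s
  -- the doubled family
  have hcard : Fintype.card ({l // vis l} ⊕ ({l // ¬ vis l} ⊕ {l // ¬ vis l})) ∈ K := by
    rw [Fintype.card_sum, Fintype.card_sum, ← two_mul]
    refine hK _ _ (Fintype.card_pos) ?_
    have := Fintype.card_subtype_compl vis
    have h2 : Fintype.card {l // vis l} ≤ Fintype.card κ := Fintype.card_subtype_le _
    rw [this, Nat.add_sub_cancel' h2]
    exact hκ
  set τ₁ : κ → {l // vis l} ⊕ ({l // ¬ vis l} ⊕ {l // ¬ vis l}) := fun l =>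
    if h : vis l then Sum.inl ⟨l, h⟩ else Sum.inr (Sum.inl ⟨l, h⟩) with hτ₁
  set τ₂ : κ → {l // vis l} ⊕ ({l // ¬ vis l} ⊕ {l // ¬ vis l}) := fun l =>
    if h : vis l then Sum.inl ⟨l, h⟩ else Sum.inr (Sum.inr ⟨l, h⟩) with hτ₂
  have hi₁ : Function.Injective τ₁ := by
    intro a b hab
    simp only [hτ₁] at hab
    by_cases ha : vis a <;> by_cases hb : vis b <;> simp [ha, hb] at hab
    · exact hab
    · exact hab
  have hi₂ : Function.Injective τ₂ := by
    intro a b hab
    simp only [hτ₂] at hab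
    by_cases ha : vis a <;> by_cases hb : vis b <;> simp [ha, hb] at hab
    · exact hab
    · exact hab
  have hdbl := hH ({l // vis l} ⊕ ({l // ¬ vis l} ⊕ {l // ¬ vis l})) ({j // tt j} ⊕ {j // tt j})
    (Sum.elim (fun j => ren τ₁ (P j.1)) (fun j => ren τ₂ (P j.1)))
    (Sum.elim (fun j => F j.1) (fun j => F j.1)) hcard
    (by
      rintro (j | j)
      · exact (hPQ j.1).ren hQ hκ hcard hi₁
      · exact (hPQ j.1).ren hQ hκ hcard hi₂)
    (by rintro (j | j) <;> exact j.2.1) (by rintro (j | j) <;> exact j.2.2)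
  filter_upwards [ae_all_iff.2 hcore, hdbl] with x hx1 hx2
  have h0 := doubling vis (fun m => ∏ j : {j // ¬ tt j}, F j.1 (W (ev (P j.1) m) x))
    (fun m => ∏ j : {j // tt j}, F j.1 (W (ev (P j.1) m) x))
    (fun m => Pf720ae.abs_prod_le_one _ _ fun j => hF1 _ _)
    (fun m => Pf720ae.abs_prod_le_one _ _ fun j => hF1 _ _) ?_ (fun M₀ _ => hx1 M₀) ?_
  · refine ⟨0, h0.congr fun M => ?_⟩
    refine avg_congr fun m _ => ?_
    rw [mul_comm]
    exact Fintype.prod_subtype_mul_prod_subtype tt fun j => F j (W (ev (P j) m) x)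
  · intro m m' hmm
    refine Finset.prod_congr rfl fun j _ => ?_
    have e : ev (P j.1) m = ev (P j.1) m' := ev_congr _ fun i l hl => hmm l ⟨j, i, hl⟩
    rw [e]
  · refine hx2.congr fun m => ?_
    rw [Fintype.prod_sum_type]
    congr 1
    · refine Finset.prod_congr rfl fun j _ => ?_
      simp only [Sum.elim_inl]
      rw [ev_ren]
      have e : (fun l => m (τ₁ l)) =
          glue vis (fun l => m (Sum.inl l)) (fun l => m (Sum.inr (Sum.inl l))) := by
        funext l
        by_cases h : vis l <;> simp [hτ₁, glue, h]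
      rw [e]
    · refine Finset.prod_congr rfl fun j _ => ?_
      simp only [Sum.elim_inr]
      rw [ev_ren]
      have e : (fun l => m (τ₂ l)) =
          glue vis (fun l => m (Sum.inl l)) (fun l => m (Sum.inr (Sum.inr l))) := by
        funext l
        by_cases h : vis l <;> simp [hτ₂, glue, h]
      rw [e]

end Pool.Agent.Lib.Pf720qp
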