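import Pool.Agent.Lib.Pf720qp.Defs
import Pool.Agent.Lib.Pf720pp.Core

/-!
# Orthogonality of products of delayed martingale differences: exponents with thin exceptional sets

Adaptation of `Pf720pp.core_ae` (file `Pf720pp/Core.lean`, 528 lines; most of its lemmas can be
cited or copied with small changes).

DIFFERENCES. (1) The good part is now
`u m x = if Gd m then (∏ j, Y j m x) * W m x else 0` where
`Gd m ↔ (∀ i j, i ≠ j → p < |ψ i m - ψ j m|) ∧ ∀ j l, dep j l → G j l m` with `G j l`, `C j l` chosen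
from `hdep`. (2) In the analogue of `line_bound` (mean square of the averages of
`vv t = if Gd (update m l t) then (∏ j ∈ S, Y j (update m l t) x) * W (update m l t) x else 0` over
the line through `m` in direction `l`, `S = {j | dep j l}`): for each `t` either `Gd (update m l t)`
fails, and then the term `∑ t', ∫ vv t * vv t'` is zero, or it holds, and then for every `j ∈ S` the
bound `C j l` for the number of points `t'` of the line with `|a + ψ j (update m l t')| ≤ p` is
available from `hdep` (with `G j l (update m l t)`); the correlation of two points which are both in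
`Gd` is bounded as in `corr_le` (only the first half of `Gd` is used there: `orth_two`). (3) The
factors `Y j` with `j ∉ S` do not depend on the coordinate `l` (`hYinv`) and are taken out of the
average over the line exactly as in `mean_sq_le`. (4) `ae_of_bound` gives `avg M u → 0` a.e.; the
difference `|avg M (∏ Y * W) - avg M u|` is at most the density of `{¬ Gd}`, which is thin by
`Thin.or`, `Thin.exists`.
-/

set_option autoImplicit false
set_option linter.unusedSectionVars false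

open Finset MeasureTheory Filter Topology
open scoped ENNReal

namespace Pool.Agent.Lib.Pf720qp

open Pool.Agent.Lib.Pf720ae

namespace CoreAux

open Pool.Agent.Lib.Pf720pp.CoreAux (Good orth_two abs_prod_le_one integrable_bdd avg_sq_le)

variable {κ : Type} [Fintype κ] [DecidableEq κ]

section orth

variable {J : Type} [Fintype J] [DecidableEq J] {X : Type} {mX : MeasurableSpace X}
  {μ : Measure X}

open Classical in
/-- the good part of the product over `S` -/
noncomputable def vv (Gd : (κ → ℕ) → Prop) (Y : J → (κ → ℕ) → X → ℝ)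
    (W : (κ → ℕ) → X → ℝ) (S : Finset J) (m : κ → ℕ) (x : X) : ℝ :=
  if Gd m then (∏ j ∈ S, Y j m x) * W m x else 0

lemma abs_vv_le (Gd : (κ → ℕ) → Prop) {Y : J → (κ → ℕ) → X → ℝ}
    (hY1 : ∀ j m x, |Y j m x| ≤ 1) {W : (κ → ℕ) → X → ℝ} (hW1 : ∀ m x, |W m x| ≤ 1)
    (S : Finset J) (m : κ → ℕ) (x : X) : |vv Gd Y W S m x| ≤ 1 := by
  unfold vv
  split_ifs
  · rw [abs_mul]
    exact mul_le_one₀ (abs_prod_le_one S fun j _ => hY1 j m x) (abs_nonneg _) (hW1 m x)
  · simp

lemma measurable_vv (Gd : (κ → ℕ) → Prop) {Y : J → (κ → ℕ) → X → ℝ}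
    (hY : ∀ j m, Measurable (Y j m)) {W : (κ → ℕ) → X → ℝ} (hW : ∀ m, Measurable (W m))
    (S : Finset J) (m : κ → ℕ) : Measurable (vv Gd Y W S m) := by
  unfold vv
  split_ifs
  · exact (Finset.measurable_fun_prod _ fun j _ => hY j m).mul (hW m)
  · exact measurable_const

open Classical in
/-- the correlation of two points of the good part -/
lemma corr_le [IsProbabilityMeasure μ] (F : ℝ → MeasurableSpace X) {p : ℝ}
    (Y : J → (κ → ℕ) → X → ℝ)
    (ψ : J → (κ → ℕ) → ℝ) {Gd : (κ → ℕ) → Prop} (hGd : ∀ m, Gd m → Good ψ p m) (hY1 : ∀ j m x, |Y j m x| ≤ 1)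
    (hYm : ∀ j m s, ψ j m < s → Measurable[F s] (Y j m))
    (hY0 : ∀ j m (h : X → ℝ), Measurable[F (ψ j m - p)] h → (∀ x, |h x| ≤ 1) →
      ∫ x, Y j m x * h x ∂μ = 0)
    (W : (κ → ℕ) → X → ℝ) (hW1 : ∀ m x, |W m x| ≤ 1) (hWm : ∀ m s, Measurable[F s] (W m))
    (S : Finset J) (hS : S.Nonempty) (m m' : κ → ℕ) :
    ∫ x, vv Gd Y W S m x * vv Gd Y W S m' x ∂μ ≤
      ∑ i ∈ S, ∑ j ∈ S, if |ψ i m - ψ j m'| ≤ p then (1 : ℝ) else 0 := by
  by_cases hsep : ∀ i ∈ S, ∀ j ∈ S, p < |ψ i m - ψ j m'|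
  · have h0 : ∫ x, vv Gd Y W S m x * vv Gd Y W S m' x ∂μ = 0 := by
      by_cases hg : Gd m
      · by_cases hg' : Gd m'
        · have := orth_two (μ := μ) F Y ψ hY1 hYm hY0 W hW1 hWm S hS m m' (hGd _ hg)
            (hGd _ hg') hsep
          simpa only [vv, if_pos hg, if_pos hg'] using this
        · simp [vv, if_neg hg']
      · simp [vv, if_neg hg]
    rw [h0]
    exact Finset.sum_nonneg fun i _ => Finset.sum_nonneg fun j _ => by split_ifs <;> norm_num
  · push Not at hsep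
    obtain ⟨i, hi, j, hj, hij⟩ := hsep
    have h1 : ∫ x, vv Gd Y W S m x * vv Gd Y W S m' x ∂μ ≤ 1 := by
      have h2 : |∫ x, vv Gd Y W S m x * vv Gd Y W S m' x ∂μ| ≤ 1 := by
        have := norm_integral_le_of_norm_le_const (μ := μ) (C := 1)
          (f := fun x => vv Gd Y W S m x * vv Gd Y W S m' x)
          (Eventually.of_forall fun x => by
            rw [Real.norm_eq_abs, abs_mul]
            exact mul_le_one₀ (abs_vv_le Gd hY1 hW1 S m x) (abs_nonneg _)
              (abs_vv_le Gd hY1 hW1 S m' x))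
        simpa using this
      exact (le_abs_self _).trans h2
    refine h1.trans ?_
    calc (1 : ℝ) = if |ψ i m - ψ j m'| ≤ p then (1 : ℝ) else 0 := by rw [if_pos hij]
      _ ≤ ∑ j ∈ S, if |ψ i m - ψ j m'| ≤ p then (1 : ℝ) else 0 :=
        Finset.single_le_sum
          (f := fun j => if |ψ i m - ψ j m'| ≤ p then (1 : ℝ) else 0)
          (fun j _ => by split_ifs <;> norm_num) hj
      _ ≤ _ := Finset.single_le_sum
          (f := fun i => ∑ j ∈ S, if |ψ i m - ψ j m'| ≤ p then (1 : ℝ) else 0)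
          (fun i _ => Finset.sum_nonneg fun j _ => by split_ifs <;> norm_num) hi

/-- the mean square of the averages along a line -/
lemma line_bound [IsProbabilityMeasure μ] (F : ℝ → MeasurableSpace X) (hle : ∀ t, F t ≤ mX)
    {p : ℝ} (hp : 0 ≤ p)
    (Y : J → (κ → ℕ) → X → ℝ)
    (ψ : J → (κ → ℕ) → ℝ) {Gd : (κ → ℕ) → Prop} (hGd : ∀ m, Gd m → Good ψ p m) (hY1 : ∀ j m x, |Y j m x| ≤ 1)
    (hYm : ∀ j m s, ψ j m < s → Measurable[F s] (Y j m))
    (hY0 : ∀ j m (h : X → ℝ), Measurable[F (ψ j m - p)] h → (∀ x, |h x| ≤ 1) →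
      ∫ x, Y j m x * h x ∂μ = 0)
    (W : (κ → ℕ) → X → ℝ) (hW1 : ∀ m x, |W m x| ≤ 1) (hWm : ∀ m s, Measurable[F s] (W m))
    (S : Finset J) (hS : S.Nonempty) (l : κ) (C : J → ℝ)
    (hC0 : ∀ j, 0 ≤ C j)
    (hl : ∀ j ∈ S, ∀ (m : κ → ℕ) (t : ℕ), Gd (Function.update m l t) → ∀ (a : ℝ) (N : ℕ),
        (((range N).filter fun s : ℕ => |a + ψ j (Function.update m l s)| ≤ p).card : ℝ) ≤ C j)
    (m : κ → ℕ) {N : ℕ} (hN : 0 < N) :
    ∫ x, ((N : ℝ)⁻¹ * ∑ t ∈ range N, vv Gd Y W S (Function.update m l t) x) ^ 2 ∂μ ≤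
      (∑ _i ∈ S, ∑ j ∈ S, C j) / N := by
  have hN' : (0 : ℝ) < N := by exact_mod_cast hN
  have hYM : ∀ j m, Measurable (Y j m) := fun j m =>
    (hYm j m (ψ j m + 1) (by linarith)).mono (hle _) le_rfl
  have hWM : ∀ m, Measurable (W m) := fun m => (hWm m 0).mono (hle _) le_rfl
  set v : ℕ → X → ℝ := fun t => vv Gd Y W S (Function.update m l t) with hv
  have hvm : ∀ t, Measurable (v t) := fun t => measurable_vv Gd hYM hWM S _
  have hv1 : ∀ t x, |v t x| ≤ 1 := fun t x => abs_vv_le Gd hY1 hW1 S _ x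
  have h1 : ∀ x, ((N : ℝ)⁻¹ * ∑ t ∈ range N, vv Gd Y W S (Function.update m l t) x) ^ 2 =
      (N : ℝ)⁻¹ ^ 2 * ∑ t ∈ range N, ∑ t' ∈ range N, v t x * v t' x := by
    intro x
    rw [mul_pow, sq (∑ t ∈ range N, _), Finset.sum_mul_sum]
  simp_rw [h1]
  have hI : ∀ t t', Integrable (fun x => v t x * v t' x) μ := fun t t' =>
    integrable_bdd ((hvm t).mul (hvm t')) (C := 1) fun x => by
      rw [abs_mul]
      exact mul_le_one₀ (hv1 t x) (abs_nonneg _) (hv1 t' x)
  rw [integral_const_mul, integral_finsetSum _ fun t _ => integrable_finsetSum _ fun t' _ =>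
    hI t t']
  have h2 : ∀ t ∈ range N, ∫ x, ∑ t' ∈ range N, v t x * v t' x ∂μ ≤
      ∑ _i ∈ S, ∑ j ∈ S, C j := by
    intro t _
    rw [integral_finsetSum _ fun t' _ => hI t t']
    classical
    by_cases hgt : Gd (Function.update m l t)
    swap
    · have h0 : ∀ t' ∈ range N, ∫ x, v t x * v t' x ∂μ = 0 := by
        intro t' _
        simp [hv, vv, if_neg hgt]
      rw [Finset.sum_eq_zero h0]
      exact Finset.sum_nonneg fun i _ => Finset.sum_nonneg fun j _ => hC0 j
    refine (Finset.sum_le_sum fun t' _ => corr_le (μ := μ) F Y ψ hGd hY1 hYm hY0 W hW1 hWm S hS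
      (Function.update m l t) (Function.update m l t')).trans ?_
    rw [Finset.sum_comm]
    refine Finset.sum_le_sum fun i _ => ?_
    rw [Finset.sum_comm]
    refine Finset.sum_le_sum fun j hj => ?_
    rw [← Finset.sum_filter, Finset.sum_const, nsmul_eq_mul, mul_one]
    have h3 := hl j hj m t hgt (-ψ i (Function.update m l t)) N
    refine le_trans (le_of_eq ?_) h3
    congr 2
    ext t'
    simp only [Finset.mem_filter]
    rw [abs_sub_comm, neg_add_eq_sub]
  calc (N : ℝ)⁻¹ ^ 2 * ∑ t ∈ range N, ∫ x, ∑ t' ∈ range N, v t x * v t' x ∂μ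
      ≤ (N : ℝ)⁻¹ ^ 2 * ∑ t ∈ range N, ∑ _i ∈ S, ∑ j ∈ S, C j := by
        refine mul_le_mul_of_nonneg_left (Finset.sum_le_sum h2) (by positivity)
    _ = (∑ _i ∈ S, ∑ j ∈ S, C j) / N := by
        rw [Finset.sum_const, card_range, nsmul_eq_mul]
        field_simp

end orth

open Classical in
/-- the mean square of the averages of the good part -/
lemma mean_sq_le {J : Type} [Fintype J] [DecidableEq J] {X : Type} {mX : MeasurableSpace X}
    {μ : Measure X} [IsProbabilityMeasure μ] (F : ℝ → MeasurableSpace X) (hle : ∀ t, F t ≤ mX)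
    {p : ℝ} (hp : 0 ≤ p)
    (Y : J → (κ → ℕ) → X → ℝ)
    (ψ : J → (κ → ℕ) → ℝ) {Gd : (κ → ℕ) → Prop} (hGd : ∀ m, Gd m → Good ψ p m) (hY1 : ∀ j m x, |Y j m x| ≤ 1)
    (hYm : ∀ j m s, ψ j m < s → Measurable[F s] (Y j m))
    (hY0 : ∀ j m (h : X → ℝ), Measurable[F (ψ j m - p)] h → (∀ x, |h x| ≤ 1) →
      ∫ x, Y j m x * h x ∂μ = 0)
    (l : κ) (S : Finset J) (hSne : S.Nonempty)
    (hYinv : ∀ j ∉ S, ∀ m t x, Y j (Function.update m l t) x = Y j (Function.update m l 0) x)
    (W : (κ → ℕ) → X → ℝ) (hW1 : ∀ m x, |W m x| ≤ 1) (hWm : ∀ m s, Measurable[F s] (W m))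
    (C : J → ℝ) (hC0 : ∀ j, 0 ≤ C j)
    (hC : ∀ j ∈ S, ∀ (m : κ → ℕ) (t : ℕ), Gd (Function.update m l t) → ∀ (a : ℝ) (N : ℕ),
        (((range N).filter fun s : ℕ => |a + ψ j (Function.update m l s)| ≤ p).card : ℝ) ≤ C j)
    (M : κ → ℕ) (hM : ∀ l, 0 < M l) :
    ∫ x, (avg M fun m => vv Gd Y W Finset.univ m x) ^ 2 ∂μ ≤
      (∑ _i ∈ S, ∑ j ∈ S, C j) / M l := by
  have hYM : ∀ j m, Measurable (Y j m) := fun j m =>
    (hYm j m (ψ j m + 1) (by linarith)).mono (hle _) le_rfl
  have hWM : ∀ m, Measurable (W m) := fun m => (hWm m 0).mono (hle _) le_rfl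
  have hMl : (0 : ℝ) < M l := by exact_mod_cast hM l
  -- pointwise bound
  have hpt : ∀ x, (avg M fun m => vv Gd Y W Finset.univ m x) ^ 2 ≤ avg M fun m =>
      ((M l : ℝ)⁻¹ * ∑ t ∈ range (M l), vv Gd Y W S (Function.update m l t) x) ^ 2 := by
    intro x
    rw [Alg.avg_update M hM l]
    refine (avg_sq_le M hM _).trans (avg_mono M fun m => ?_)
    rw [← sq_abs ((M l : ℝ)⁻¹ * ∑ t ∈ range (M l), vv Gd Y W Finset.univ (Function.update m l t) x),
      ← sq_abs ((M l : ℝ)⁻¹ * ∑ t ∈ range (M l), vv Gd Y W S (Function.update m l t) x)]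
    refine pow_le_pow_left₀ (abs_nonneg _) ?_ 2
    have h3 : ∑ t ∈ range (M l), vv Gd Y W Finset.univ (Function.update m l t) x =
        (∏ j ∈ Finset.univ.filter (fun j => ¬ j ∈ S), Y j (Function.update m l 0) x) *
        ∑ t ∈ range (M l), vv Gd Y W S (Function.update m l t) x := by
      rw [Finset.mul_sum]
      refine Finset.sum_congr rfl fun t _ => ?_
      simp only [vv]
      split_ifs with hg
      · rw [← Finset.prod_filter_mul_prod_filter_not Finset.univ (fun j => j ∈ S)]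
        have h4 : ∏ j ∈ Finset.univ.filter (fun j => ¬ j ∈ S), Y j (Function.update m l t) x =
            ∏ j ∈ Finset.univ.filter (fun j => ¬ j ∈ S), Y j (Function.update m l 0) x :=
          Finset.prod_congr rfl fun j hj => hYinv j (Finset.mem_filter.1 hj).2 m t x
        have h5 : Finset.univ.filter (fun j => j ∈ S) = S := by ext j; simp
        rw [h4, h5]
        ring
      · ring
    rw [h3, abs_mul, abs_mul, abs_mul]
    have h5 := abs_prod_le_one (Finset.univ.filter (fun j => ¬ j ∈ S))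
      (f := fun j => Y j (Function.update m l 0) x) fun j _ => hY1 j _ x
    calc |(M l : ℝ)⁻¹| * (|∏ j ∈ Finset.univ.filter (fun j => ¬ j ∈ S),
          Y j (Function.update m l 0) x| *
          |∑ t ∈ range (M l), vv Gd Y W S (Function.update m l t) x|)
        ≤ |(M l : ℝ)⁻¹| * (1 *
          |∑ t ∈ range (M l), vv Gd Y W S (Function.update m l t) x|) := by gcongr
      _ = _ := by rw [one_mul]
  -- integrate
  have hvm : ∀ m, Measurable fun x =>
      ((M l : ℝ)⁻¹ * ∑ t ∈ range (M l), vv Gd Y W S (Function.update m l t) x) ^ 2 :=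
    fun m => ((Finset.measurable_fun_sum _ fun t _ =>
      measurable_vv Gd hYM hWM S _).const_mul _).pow_const 2
  have hvb : ∀ m x, |((M l : ℝ)⁻¹ * ∑ t ∈ range (M l),
      vv Gd Y W S (Function.update m l t) x) ^ 2| ≤ 1 := by
    intro m x
    rw [abs_pow]
    refine pow_le_one₀ (abs_nonneg _) ?_
    rw [abs_mul, abs_of_pos (inv_pos.2 hMl), inv_mul_le_iff₀ hMl, mul_one]
    refine (Finset.abs_sum_le_sum_abs _ _).trans ?_
    refine (Finset.sum_le_sum fun t _ => abs_vv_le Gd hY1 hW1 S _ x).trans ?_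
    simp
  have hI : ∀ m, Integrable (fun x =>
      ((M l : ℝ)⁻¹ * ∑ t ∈ range (M l), vv Gd Y W S (Function.update m l t) x) ^ 2) μ :=
    fun m => integrable_bdd (hvm m) (hvb m)
  calc ∫ x, (avg M fun m => vv Gd Y W Finset.univ m x) ^ 2 ∂μ
      ≤ ∫ x, (avg M fun m => ((M l : ℝ)⁻¹ * ∑ t ∈ range (M l),
          vv Gd Y W S (Function.update m l t) x) ^ 2) ∂μ := by
        refine integral_mono_of_nonneg (Eventually.of_forall fun x => sq_nonneg _) ?_
          (Eventually.of_forall hpt)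
        unfold avg
        exact (integrable_finsetSum _ fun m _ => hI m).const_mul _
    _ = avg M fun m => ∫ x, ((M l : ℝ)⁻¹ * ∑ t ∈ range (M l),
          vv Gd Y W S (Function.update m l t) x) ^ 2 ∂μ := by
        unfold avg
        rw [integral_const_mul, integral_finsetSum _ fun m _ => hI m]
    _ ≤ _ := by
        refine avg_le_of_le (div_nonneg (Finset.sum_nonneg fun i _ =>
            Finset.sum_nonneg fun j _ => hC0 j) hMl.le) fun m => ?_
        exact line_bound F hle hp Y ψ hGd hY1 hYm hY0 W hW1 hWm S hSne l C hC0 hC m (hM l)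

end CoreAux

open CoreAux
open Pool.Agent.Lib.Pf720pp.CoreAux (Good abs_prod_le_one ae_of_bound)

theorem core_ae {κ : Type} [Fintype κ] [DecidableEq κ] [Nonempty κ] {J : Type} [Fintype J]
    [DecidableEq J] {X : Type} {mX : MeasurableSpace X} {μ : Measure X} [IsProbabilityMeasure μ]
    (F : ℝ → MeasurableSpace X) (hle : ∀ t, F t ≤ mX)
    (ψ : J → (κ → ℕ) → ℝ) (dep : J → κ → Prop) (p : ℝ) (hp : 0 ≤ p)
    (hne : ∀ i j, i ≠ j → Thin fun m => |ψ i m - ψ j m| ≤ p)
    (hdep : ∀ j l, dep j l → ∃ (G : (κ → ℕ) → Prop) (C : ℝ), 0 ≤ C ∧ Thin (fun m => ¬ G m) ∧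
      ∀ (m : κ → ℕ) (t : ℕ), G (Function.update m l t) → ∀ (a : ℝ) (N : ℕ),
        (((range N).filter fun s : ℕ => |a + ψ j (Function.update m l s)| ≤ p).card : ℝ) ≤ C)
    (hvis : ∀ l : κ, ∃ j, dep j l)
    (Y : J → (κ → ℕ) → X → ℝ) (hY1 : ∀ j m x, |Y j m x| ≤ 1)
    (hYm : ∀ j m s, ψ j m < s → Measurable[F s] (Y j m))
    (hY0 : ∀ j m (h : X → ℝ), Measurable[F (ψ j m - p)] h → (∀ x, |h x| ≤ 1) →
      ∫ x, Y j m x * h x ∂μ = 0)
    (hYinv : ∀ j l, ¬ dep j l → ∀ m t x,
      Y j (Function.update m l t) x = Y j (Function.update m l 0) x)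
    (W : (κ → ℕ) → X → ℝ) (hW1 : ∀ m x, |W m x| ≤ 1) (hWm : ∀ m s, Measurable[F s] (W m)) :
    ∀ᵐ x ∂μ, Tendsto (fun M : κ → ℕ => avg M fun m => (∏ j, Y j m x) * W m x) atTop (𝓝 0) := by
  classical
  have hYM : ∀ j m, Measurable (Y j m) := fun j m =>
    (hYm j m (ψ j m + 1) (by linarith)).mono (hle _) le_rfl
  have hWM : ∀ m, Measurable (W m) := fun m => (hWm m 0).mono (hle _) le_rfl
  have hC : ∀ j l, ∃ (G : (κ → ℕ) → Prop) (C : ℝ), 0 ≤ C ∧ Thin (fun m => ¬ G m) ∧ (dep j l →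
      ∀ (m : κ → ℕ) (t : ℕ), G (Function.update m l t) → ∀ (a : ℝ) (N : ℕ),
        (((range N).filter fun s : ℕ => |a + ψ j (Function.update m l s)| ≤ p).card : ℝ) ≤ C) := by
    intro j l
    by_cases h : dep j l
    · obtain ⟨G, C, hC0, hG, hC⟩ := hdep j l h
      exact ⟨G, C, hC0, hG, fun _ => hC⟩
    · exact ⟨fun _ => True, 0, le_rfl, Thin.false.mono fun m hm => hm trivial,
        fun h' => absurd h' h⟩
  choose G C hC0 hthin hC using hC
  set Gd : (κ → ℕ) → Prop := fun m => Good ψ p m ∧ ∀ j l, G j l m with hGd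
  have hGd1 : ∀ m, Gd m → Good ψ p m := fun m h => h.1
  have hbad : Thin fun m => ¬ Gd m := by
    have h1 : Thin fun m => ∃ q : J × J, q.1 ≠ q.2 ∧ |ψ q.1 m - ψ q.2 m| ≤ p := by
      refine Thin.exists fun q => ?_
      by_cases hq : q.1 = q.2
      · exact Thin.false.mono fun m hm => hm.1 hq
      · exact (hne _ _ hq).mono fun m hm => hm.2
    have h2 : Thin fun m => ∃ q : J × κ, ¬ G q.1 q.2 m := Thin.exists fun q => hthin _ _
    refine (h1.or h2).mono fun m hm => ?_
    by_contra hcon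
    push Not at hcon
    refine hm ⟨fun i j hij => ?_, fun j l => hcon.2 (j, l)⟩
    exact hcon.1 (i, j) hij
  -- the good part
  set u : (κ → ℕ) → X → ℝ := vv Gd Y W Finset.univ with hu
  have hu1 : ∀ m x, |u m x| ≤ 1 := fun m x => abs_vv_le Gd hY1 hW1 _ m x
  have hum : ∀ m, Measurable (u m) := fun m => measurable_vv Gd hYM hWM _ m
  have hae := ae_of_bound (μ := μ) hum hu1
    (fun l => ∑ _i ∈ Finset.univ.filter (fun j => dep j l),
      ∑ j ∈ Finset.univ.filter (fun j => dep j l), C j l)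
    (fun l => Finset.sum_nonneg fun i _ => Finset.sum_nonneg fun j _ => hC0 j l)
    (fun M hM l => mean_sq_le F hle hp Y ψ hGd1 hY1 hYm hY0 l
      (Finset.univ.filter fun j => dep j l)
      (by
        obtain ⟨j, hj⟩ := hvis l
        exact ⟨j, by simp [hj]⟩)
      (fun j hj m t x => hYinv j l (fun h => hj (by simp [h])) m t x) W hW1 hWm (fun j => C j l)
      (fun j => hC0 j l)
      (fun j hj m t hg => hC j l (Finset.mem_filter.1 hj).2 m t (hg.2 j l)) M hM)
  filter_upwards [hae] with x h1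
  have h2 : Tendsto (fun M : κ → ℕ => (avg M fun m => (∏ j, Y j m x) * W m x) -
      avg M fun m => u m x) atTop (𝓝 0) := by
    refine squeeze_zero_norm (fun M => ?_) hbad
    rw [Real.norm_eq_abs, ← avg_sub]
    refine (abs_avg_le M _).trans (avg_mono M fun m => ?_)
    by_cases hg : Gd m
    · simp only [hu, vv, if_pos hg, sub_self, abs_zero]
      split_ifs <;> norm_num
    · rw [if_pos hg]
      simp only [hu, vv, if_neg hg, sub_zero]
      rw [abs_mul]
      exact mul_le_one₀ (abs_prod_le_one _ fun j _ => hY1 j m x) (abs_nonneg _) (hW1 m x)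
  have h3 := h2.add h1
  simp only [sub_add_cancel, add_zero] at h3
  exact h3

end Pool.Agent.Lib.Pf720qp
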