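import Pool.Agent.Lib.Pf720ae.Alg.AE
import Pool.Agent.Lib.Pf720pi.Final
import Pool.Agent.Lib.Pf720mp.Defs

/-!
# Pinsker reduction for arbitrary polynomial exponents in several variables: definitions
-/

set_option autoImplicit false
set_option linter.unusedSectionVars false

open Finset MeasureTheory Filter Topology
open scoped ENNReal

namespace Pool.Agent.Lib.Pf720qp

open Pool.Agent.Lib.Pf720ae
open Pool.Agent.Lib.Pf720mp (Ex mon pp)

/-- vectors of integer polynomials in the variables `κ` -/
abbrev MV (κ : Type) (d : ℕ) := Fin d → MvPolynomial κ ℤ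

section ev

variable {κ : Type} {d : ℕ}

/-- the exponent `P(m)` -/
noncomputable def ev (P : MV κ d) (m : κ → ℕ) : Fin d → ℤ :=
  fun i => MvPolynomial.eval (fun l => (m l : ℤ)) (P i)

/-- renaming of the variables -/
noncomputable def ren {κ' : Type} (τ : κ → κ') (P : MV κ d) : MV κ' d :=
  fun i => MvPolynomial.rename τ (P i)

/-- removing the constant terms -/
noncomputable def unc (P : MV κ d) : MV κ d :=
  fun i => P i - MvPolynomial.C (MvPolynomial.constantCoeff (P i))

/-- the constant terms -/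
noncomputable def cst (P : MV κ d) : Fin d → ℤ := fun i => MvPolynomial.constantCoeff (P i)

lemma ev_zero (m : κ → ℕ) : ev (0 : MV κ d) m = 0 := by
  funext i
  simp [ev]

lemma ev_ren {κ' : Type} (τ : κ → κ') (P : MV κ d) (m : κ' → ℕ) :
    ev (ren τ P) m = ev P (fun l => m (τ l)) := by
  funext i
  simp only [ev, ren, MvPolynomial.eval_rename]
  rfl

lemma ev_unc (P : MV κ d) (m : κ → ℕ) : ev P m = cst P + ev (unc P) m := by
  funext i
  simp [ev, cst, unc]

lemma constantCoeff_unc (P : MV κ d) (i : Fin d) :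
    MvPolynomial.constantCoeff (unc P i) = 0 := by
  simp [unc]

lemma ren_ren {κ' κ'' : Type} (τ : κ → κ') (σ : κ' → κ'') (P : MV κ d) :
    ren σ (ren τ P) = ren (fun l => σ (τ l)) P := by
  funext i
  simp only [ren, MvPolynomial.rename_rename]
  rfl

lemma ren_unc {κ' : Type} (τ : κ → κ') (P : MV κ d) : ren τ (unc P) = unc (ren τ P) := by
  funext i
  simp [ren, unc, MvPolynomial.constantCoeff_rename]

end ev

/-- classes of polynomial maps, for every number of variables -/
abbrev Cls (d : ℕ) := ∀ k : ℕ, Set (MV (Fin k) d)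

/-- closed under injective renaming of the variables -/
def ClosedRen {d : ℕ} (K : Set ℕ) (Q : Cls d) : Prop :=
  ∀ k ∈ K, ∀ k' ∈ K, ∀ σ : Fin k → Fin k', Function.Injective σ → ∀ P ∈ Q k, ren σ P ∈ Q k'

/-- membership in a class, for any finite type of variables -/
def InC {d : ℕ} (Q : Cls d) (κ : Type) [Fintype κ] (P : MV κ d) : Prop :=
  ∃ e : κ ≃ Fin (Fintype.card κ), ren e P ∈ Q (Fintype.card κ)

/-- the class of the polynomials of `Q` without their constant terms -/
def uncC {d : ℕ} (Q : Cls d) : Cls d := fun k => unc '' Q k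

lemma ClosedRen.unc {d : ℕ} {K : Set ℕ} {Q : Cls d} (h : ClosedRen K Q) : ClosedRen K (uncC Q) := by
  rintro k hk k' hk' σ hσ _ ⟨P, hP, rfl⟩
  exact ⟨ren σ P, h k hk k' hk' σ hσ P hP, (ren_unc σ P).symm⟩

lemma InC.ren {d : ℕ} {K : Set ℕ} {Q : Cls d} (hQ : ClosedRen K Q) {κ κ' : Type} [Fintype κ]
    [Fintype κ'] {P : MV κ d} (hP : InC Q κ P) (hκ : Fintype.card κ ∈ K)
    (hκ' : Fintype.card κ' ∈ K) {τ : κ → κ'} (hτ : Function.Injective τ) :
    InC Q κ' (ren τ P) := by
  obtain ⟨e, he⟩ := hP
  refine ⟨Fintype.equivFin κ', ?_⟩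
  have h := hQ _ hκ _ hκ' (fun a => Fintype.equivFin κ' (τ (e.symm a)))
    ((Fintype.equivFin κ').injective.comp (hτ.comp e.symm.injective)) _ he
  rw [ren_ren] at h ⊢
  simpa using h

lemma InC.of_fin {d : ℕ} {Q : Cls d} {k : ℕ} {P : MV (Fin k) d} (hP : P ∈ Q k) :
    InC Q (Fin k) P := by
  have h : ∀ n (hn : n = k), ∃ e : Fin k ≃ Fin n, Pf720qp.ren e P ∈ Q n := by
    rintro n rfl
    refine ⟨Equiv.refl _, ?_⟩
    have : Pf720qp.ren (Equiv.refl (Fin n)) P = P := by
      funext i
      simp [Pf720qp.ren]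
    rwa [this]
  exact h _ (Fintype.card_fin k)

/-- convergence of all polynomial multiple averages with exponents in `Q` and a number
of variables in `K`, of bounded `m`-measurable real functions -/
def PolR {X : Type} {mX : MeasurableSpace X} (μ : Measure X) {d : ℕ} (K : Set ℕ)
    (Q : Cls d) (W : (Fin d → ℤ) → X → X) (m : MeasurableSpace X) : Prop :=
  ∀ (κ : Type) [Fintype κ] [DecidableEq κ] (J : Type) [Fintype J] [DecidableEq J]
    (P : J → MV κ d) (F : J → X → ℝ), Fintype.card κ ∈ K → (∀ j, InC Q κ (P j)) →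
    (∀ j, Measurable[m] (F j)) →
    (∀ j x, |F j x| ≤ 1) → ∀ᵐ x ∂μ, Cvg fun m : κ → ℕ => ∏ j, F j (W (ev (P j) m) x)

/-- sets of density zero along the boxes -/
def Thin {κ : Type} [Fintype κ] [DecidableEq κ] (B : (κ → ℕ) → Prop) : Prop :=
  Tendsto (fun M : κ → ℕ => avg M fun m => (open Classical in if B m then (1 : ℝ) else 0))
    atTop (𝓝 0)

section thin

variable {κ : Type} [Fintype κ] [DecidableEq κ]

lemma Thin.mono {A B : (κ → ℕ) → Prop} (hB : Thin B) (h : ∀ m, A m → B m) : Thin A := by
  classical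
  refine squeeze_zero (fun M => avg_nonneg M fun m => by split_ifs <;> norm_num)
    (fun M => avg_mono M fun m => ?_) hB
  by_cases hA : A m
  · rw [if_pos hA, if_pos (h m hA)]
  · rw [if_neg hA]; split_ifs <;> norm_num

lemma Thin.or {A B : (κ → ℕ) → Prop} (hA : Thin A) (hB : Thin B) : Thin fun m => A m ∨ B m := by
  classical
  have h := Tendsto.add hA hB
  rw [add_zero] at h
  refine squeeze_zero (fun M => avg_nonneg M fun m => by split_ifs <;> norm_num)
    (fun M => ?_) h
  rw [← avg_add]
  refine avg_mono M fun m => ?_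
  by_cases h1 : A m
  · rw [if_pos (Or.inl h1), if_pos h1]; split_ifs <;> norm_num
  · by_cases h2 : B m
    · rw [if_pos (Or.inr h2), if_neg h1, if_pos h2]; norm_num
    · rw [if_neg (by tauto), if_neg h1, if_neg h2]; norm_num

lemma Thin.false : Thin (fun _ : κ → ℕ => False) := by
  unfold Thin
  simp only [if_false]
  have : (fun M : κ → ℕ => avg M fun _ => (0 : ℝ)) = fun _ => 0 := by
    funext M
    simp [avg]
  rw [this]
  exact tendsto_const_nhds

lemma Thin.exists {ι : Type} [Fintype ι] {A : ι → (κ → ℕ) → Prop} (hA : ∀ i, Thin (A i)) :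
    Thin fun m => ∃ i, A i m := by
  classical
  have h : ∀ s : Finset ι, Thin fun m => ∃ i ∈ s, A i m := by
    intro s
    induction s using Finset.induction_on with
    | empty => exact Thin.false.mono fun m h => by simp at h
    | insert a s _ ih =>
      exact ((hA a).or ih).mono fun m h => by simpa using h
  exact (h Finset.univ).mono fun m h => by simpa using h

end thin

end Pool.Agent.Lib.Pf720qp
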