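import Pool.Agent.Lib.Pf720qp.Closure
import Pool.Agent.Lib.Pf720pp.Final

/-!
# The Pinsker reduction for arbitrary polynomial exponents
-/

set_option autoImplicit false
set_option linter.unusedSectionVars false

open Finset MeasureTheory Filter Topology
open scoped ENNReal

namespace Pool.Agent.Lib.Pf720qp

open Pool.Agent.Lib.Pf720ae
open Pool.Agent.Lib.Pf720pi (pinskerW avg_reindex exists_injective)
open Pool.Agent.Lib.Pf720pp (cvg_shift comap_pinsker)
open Pool.Agent.Lib.Pf720pp.CoreAux (abs_prod_le_one)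

/-- unrestricted convergence of all polynomial multiple averages of the bounded
functions that are a.e. equal to an `m`-measurable function -/
def PolC {X : Type} {mX : MeasurableSpace X} (μ : Measure X) {d : ℕ} (T : Fin d → Equiv.Perm X)
    (K : Set ℕ) (Q : Cls d) (m : MeasurableSpace X) : Prop :=
  ∀ k ∈ K, ∀ (n : ℕ) (P : Fin n → Fin d → MvPolynomial (Fin k) ℤ) (f : Fin n → X → ℂ),
    (∀ j, P j ∈ Q k) →
    (∀ j, MemLp (f j) ⊤ μ ∧ AEStronglyMeasurable[m] (f j) μ) →
    ∀ᵐ x ∂μ, ∃ L : ℂ, Tendsto (fun M : Fin k → ℕ => (∏ l, (M l : ℂ))⁻¹ *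
      ∑ m ∈ Fintype.piFinset (fun l => Finset.Icc 1 (M l)),
        ∏ j, f j (pw T (fun i => MvPolynomial.eval (fun l => (m l : ℤ)) (P j i)) x))
      atTop (𝓝 L)

lemma polR_of_polC {X : Type} {m : MeasurableSpace X} {mX : MeasurableSpace X} {μ : Measure X}
    [IsProbabilityMeasure μ] (hm : m ≤ mX) {d : ℕ} (T : Fin d → Equiv.Perm X)
    (hcomm : ∀ i i', T i * T i' = T i' * T i)
    (hinv : ∀ v : Fin d → ℤ, MeasurableSpace.comap (fun x => pw T v x) m ≤ m)
    (K : Set ℕ) (Q : Cls d) (hQ : ClosedRen K Q)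
    (hC : PolC μ T K Q m) : PolR μ K (uncC Q) (fun e x => pw T e x) m := by
  intro κ _ _ J _ _ P₀ F hκ hP₀ hFm hF1
  classical
  set eκ : κ ≃ Fin (Fintype.card κ) := Fintype.equivFin κ
  set eJ : J ≃ Fin (Fintype.card J) := Fintype.equivFin J
  have hex : ∀ j, ∃ P : MV (Fin (Fintype.card κ)) d, P ∈ Q (Fintype.card κ) ∧
      ren eκ (P₀ j) = unc P := by
    intro j
    obtain ⟨e, P, hP, he⟩ := hP₀ j
    refine ⟨ren (fun a => eκ (e.symm a)) P,
      hQ _ hκ _ hκ _ (eκ.injective.comp e.symm.injective) P hP, ?_⟩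
    rw [← ren_unc, he, ren_ren]
    simp
  choose P hPQ hP using hex
  have hev : ∀ j (m : κ → ℕ), ev (P j) (fun a => m (eκ.symm a)) = cst (P j) + ev (P₀ j) m := by
    intro j m
    rw [ev_unc, ← hP, ev_ren]
    simp
  have hFm' : ∀ j, Measurable[m] fun x => F j (pw T (-cst (P j)) x) := by
    intro j
    have h1 : Measurable[m.comap (fun x => pw T (-cst (P j)) x)] fun x =>
        F j (pw T (-cst (P j)) x) := by
      intro s hs
      exact ⟨F j ⁻¹' s, hFm j hs, rfl⟩
    exact h1.mono (hinv _) le_rfl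
  have h1 := hC _ hκ (Fintype.card J) (fun j => P (eJ.symm j))
    (fun j x => ((F (eJ.symm j) (pw T (-cst (P (eJ.symm j))) x) : ℝ) : ℂ))
    (fun j => hPQ _) (fun j => ⟨?_, ?_⟩)
  · filter_upwards [h1] with x hx
    obtain ⟨L, hL⟩ := hx
    have h2 := (Complex.continuous_re.tendsto L).comp hL
    have hre : Tendsto (fun M : κ → ℕ => fun l : Fin (Fintype.card κ) => M (eκ.symm l))
        atTop atTop := by
      rw [tendsto_atTop]
      intro b
      filter_upwards [eventually_ge_atTop (fun l : κ => b (eκ l))] with M hM l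
      have := hM (eκ.symm l)
      simpa using this
    refine (cvg_shift (u := fun m : κ → ℕ => ∏ j, F j (pw T (ev (P₀ j) m) x))
      (fun m => abs_prod_le_one _ fun j _ => hF1 j _)).1 ?_
    refine ⟨L.re, (h2.comp hre).congr fun M => ?_⟩
    rw [avg_reindex eκ M]
    simp only [Function.comp]
    rw [sum_Icc_eq]
    unfold avg Pool.Agent.Lib.Pf720ae.box
    have e1 : ∀ m : Fin (Fintype.card κ) → ℕ, ∏ j : Fin (Fintype.card J),
        ((F (eJ.symm j) (pw T (-cst (P (eJ.symm j)))
          (pw T (fun i => MvPolynomial.eval (fun l => (((m + 1) l : ℕ) : ℤ)) (P (eJ.symm j) i))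
            x)) : ℝ) : ℂ) =
        ((∏ j, F j (pw T (ev (P₀ j) ((fun l => m (eκ l)) + 1)) x) : ℝ) : ℂ) := by
      intro m
      rw [← Complex.ofReal_prod]
      congr 1
      refine Fintype.prod_equiv eJ.symm _ _ fun j => ?_
      have e2 : pw T (ev (P₀ (eJ.symm j)) ((fun l => m (eκ l)) + 1)) =
          pw T (-cst (P (eJ.symm j))) * pw T (fun i =>
            MvPolynomial.eval (fun l => (((m + 1) l : ℕ) : ℤ)) (P (eJ.symm j) i)) := by
        rw [← pw_add T hcomm]
        congr 1
        have e3 := hev (eJ.symm j) ((fun l => m (eκ l)) + 1)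
        have e4 : (fun a => ((fun l => m (eκ l)) + 1) (eκ.symm a)) = m + 1 := by
          funext a
          simp
        rw [e4] at e3
        have e5 : (fun i => MvPolynomial.eval (fun l => (((m + 1) l : ℕ) : ℤ))
            (P (eJ.symm j) i)) = ev (P (eJ.symm j)) (m + 1) := rfl
        rw [e5, e3, neg_add_cancel_left]
      rw [e2]
      rfl
    simp only [e1]
    rw [← Complex.ofReal_sum]
    have e3 : (∏ l : Fin (Fintype.card κ), ((M (eκ.symm l) : ℕ) : ℂ))⁻¹ =
        (((∏ l : Fin (Fintype.card κ), ((M (eκ.symm l) : ℕ) : ℝ))⁻¹ : ℝ) : ℂ) := by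
      push_cast
      rfl
    rw [e3, ← Complex.ofReal_mul, Complex.ofReal_re]
  · refine MemLp.of_bound ?_ 1 (Eventually.of_forall fun x => ?_)
    · exact (Complex.measurable_ofReal.comp ((hFm' _).mono hm le_rfl)).aestronglyMeasurable
    · rw [Complex.norm_real]
      exact hF1 _ _
  · exact (Complex.measurable_ofReal.comp (hFm' _)).aestronglyMeasurable

theorem polC_of_polR {X : Type} {mX : MeasurableSpace X} {μ : Measure X}
    [IsProbabilityMeasure μ] {d : ℕ} (T : Fin d → Equiv.Perm X)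
    (hT : ∀ i, Measurable (T i) ∧ Measurable (T i).symm ∧ MeasurePreserving (T i) μ μ)
    (hcomm : ∀ i i', T i * T i' = T i' * T i) (K : Set ℕ) (Q : Cls d)
    (hR : PolR μ K (uncC Q) (fun e x => pw T e x) mX) : PolC μ T K Q mX := by
  intro k hk n P f hPQ hf
  have h1 := lift_complex (μ := μ) (κ := Fin k)
    (fun j m => pw T (ev (P j) (m + 1))) (fun j m => mp_pw T hT _) ?_ f
    (fun j => (hf j).1)
  · filter_upwards [h1] with x hx
    obtain ⟨L, hL⟩ := hx
    refine ⟨L, hL.congr fun M => ?_⟩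
    rw [sum_Icc_eq]
    rfl
  · intro F hFm hF1
    have h2 := hR (Fin k) (Fin n) (fun j => unc (P j))
      (fun j x => F j (pw T (cst (P j)) x)) (by rw [Fintype.card_fin]; exact hk)
      (fun j => InC.of_fin ⟨P j, hPQ j, rfl⟩)
      (fun j => (hFm j).comp (mp_pw T hT _).measurable) (fun j x => hF1 j _)
    filter_upwards [h2] with x hx
    have h3 : Cvg fun m : Fin k → ℕ => ∏ j, F j (pw T (ev (P j) m) x) := by
      refine hx.congr fun m => Finset.prod_congr rfl fun j _ => ?_
      rw [ev_unc (P j) m, pw_add T hcomm (cst (P j))]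
      rfl
    exact (cvg_shift (u := fun m : Fin k → ℕ => ∏ j, F j (pw T (ev (P j) m) x))
      (fun m => abs_prod_le_one _ fun j _ => hF1 j _)).2 h3

/-- the Pinsker reduction for arbitrary polynomial exponents -/
theorem pinsker_reduction {X : Type} {mX : MeasurableSpace X} {μ : Measure X}
    [IsProbabilityMeasure μ] {d : ℕ} (T : Fin d → Equiv.Perm X)
    (hT : ∀ i, Measurable (T i) ∧ Measurable (T i).symm ∧ MeasurePreserving (T i) μ μ)
    (hcomm : ∀ i i', T i * T i' = T i' * T i) (K : Set ℕ)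
    (hK : ∀ v w, 1 ≤ v → v + w ∈ K → v + 2 * w ∈ K) (Q : Cls d) (hQ : ClosedRen K Q) :
    PolC μ T K Q mX ↔ PolC μ T K Q (pinskerW μ fun e x => pw T e x) := by
  have hle : pinskerW μ (fun e x => pw T e x) ≤ mX := by
    refine MeasurableSpace.generateFrom_le ?_
    rintro s ⟨hs, -⟩
    exact hs
  constructor
  · intro h k hk n q f hqQ hf
    exact h k hk n q f hqQ fun j => ⟨(hf j).1, (hf j).1.1⟩
  · intro h
    refine polC_of_polR T hT hcomm K Q ?_
    obtain ⟨φ, hφ⟩ := exists_injective d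
    refine polR_of_pinsker (fun e x => pw T e x) (fun x => by rw [pw_zero]; rfl)
      (fun a b x => by rw [pw_add T hcomm]; rfl) (fun a => mp_pw T hT a) φ hφ K hK (uncC Q)
      hQ.unc ?_ (polR_of_polC hle T hcomm (fun v => ?_) K Q hQ h)
    · rintro k _ ⟨P, -, rfl⟩ i
      exact constantCoeff_unc P i
    · exact comap_pinsker (fun e x => pw T e x) (fun a b x => by rw [pw_add T hcomm]; rfl)
        (fun a => mp_pw T hT a) v

end Pool.Agent.Lib.Pf720qp
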